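import Pool.Agent.L5helper80.EC.Main

/-!
# Collapse with the rate of a self-similar solution, and the Beale-Kato-Majda integral
-/

open MeasureTheory Set
open scoped ENNReal NNReal Topology Pointwise Matrix

namespace Pool.Agent.L5helper80.EC

open Pool.Agent.H708R2.EulerSign Pool.Agent.H708R2.EulerTypeI

variable {T : ℝ} {u : ℝ → V → V} {p : ℝ → V → ℝ}

lemma vort_le_of_flat {n : ℕ} {v : V → V} (hk : ContDiff ℝ (n + 2 : ℕ) v)
    (hz : ∀ j < n + 2, iteratedFDeriv ℝ j v 0 = 0) {M r : ℝ} (hr : 0 ≤ r)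
    (hM : ∀ y, ‖y‖ ≤ 2 * r → ‖iteratedFDeriv ℝ (n + 2) v y‖ ≤ M) {y : V} (hy : ‖y‖ ≤ 2 * r) :
    ‖vort v y‖ ≤ 4 * r ^ (n + 1) * M := by
  have h1 := (flat_bounds hk hz hr hM hy).2.1
  rw [vort_eq_cvL]
  refine (norm_cvL_le _).trans ?_
  linarith

lemma integral_rate {T A γ s t : ℝ} (hγ : 0 < γ) (hA : 0 ≤ A) (hst : s ≤ t) (ht : t < T) :
    ∫ τ in s..t, A * (T - τ) ^ (-1 - γ) ≤ A / γ * (T - t) ^ (-γ) := by
  have hpos : ∀ τ ∈ uIcc s t, 0 < T - τ := by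
    intro τ hτ
    rw [uIcc_of_le hst] at hτ
    linarith [hτ.2]
  have hd : ∀ τ ∈ uIcc s t, HasDerivAt (fun τ => A / γ * (T - τ) ^ (-γ))
      (A * (T - τ) ^ (-1 - γ)) τ := by
    intro τ hτ
    have h1 : HasDerivAt (fun τ : ℝ => T - τ) (-1) τ := by
      simpa using (hasDerivAt_id τ).const_sub T
    have h2 := (h1.rpow_const (p := -γ) (Or.inl (hpos τ hτ).ne')).const_mul (A / γ)
    refine h2.congr_deriv ?_
    rw [show (-1 - γ) = (-γ - 1) by ring]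
    field_simp
  have hc : ContinuousOn (fun τ => A * (T - τ) ^ (-1 - γ)) (uIcc s t) := by
    refine continuousOn_const.mul (ContinuousOn.rpow_const (by fun_prop) ?_)
    intro τ hτ
    exact Or.inl (hpos τ hτ).ne'
  rw [intervalIntegral.integral_eq_sub_of_hasDerivAt hd hc.intervalIntegrable]
  have : 0 ≤ A / γ * (T - s) ^ (-γ) := by
    have := (hpos s left_mem_uIcc).le
    positivity
  linarith

/-- Collapse with the rate of a self-similar solution has an irrotational core. -/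
theorem collapse (h : IsC2Solution T u p) {n : ℕ}
    (hk : ∀ τ ∈ Ico 0 T, ContDiff ℝ (n + 2 : ℕ) (u τ))
    (hz : ∀ τ ∈ Ico 0 T, ∀ j < n + 2, iteratedFDeriv ℝ j (u τ) 0 = 0)
    {β A R t₀ ρ : ℝ} (hβ : 0 < β) (hA : 0 ≤ A) (ht₀ : t₀ ∈ Ico 0 T)
    (hD : ∀ τ ∈ Ico t₀ T, ∀ y, ‖y‖ ≤ R * (T - τ) ^ β →
      ‖iteratedFDeriv ℝ (n + 2) (u τ) y‖ ≤ A * (T - τ) ^ (-1 - ((n : ℝ) + 1) * β))
    (hρ0 : 0 ≤ ρ) (hρR : 2 * ρ ≤ R) (hρ : 4 * A * ρ ^ (n + 1) ≤ ((n : ℝ) + 1) * β)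
    {t : ℝ} (ht : t ∈ Ico t₀ T) {x : V} (hx : ‖x‖ ≤ ρ * (T - t) ^ β) :
    (T - t) * ‖vort (u t) x‖
      ≤ 2 * (((n : ℝ) + 1) * β) * ((T - t) / (T - t₀)) ^ (1 + ((n : ℝ) + 1) * β) := by
  set γ : ℝ := ((n : ℝ) + 1) * β with hγ
  have hγ0 : 0 < γ := by positivity
  have hTt : 0 < T - t := sub_pos.2 ht.2
  have hTt₀ : 0 < T - t₀ := sub_pos.2 ht₀.2
  have hsub : ∀ τ ∈ Icc t₀ t, τ ∈ Ico t₀ T := fun τ hτ => ⟨hτ.1, hτ.2.trans_lt ht.2⟩
  have hsub0 : ∀ τ ∈ Icc t₀ t, τ ∈ Ico 0 T := fun τ hτ =>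
    ⟨ht₀.1.trans hτ.1, hτ.2.trans_lt ht.2⟩
  have hball : ∀ τ ∈ Icc t₀ t, ∀ y : V, ‖y‖ ≤ 2 * ‖x‖ → ‖y‖ ≤ R * (T - τ) ^ β := by
    intro τ hτ y hy
    have hmono : (T - t) ^ β ≤ (T - τ) ^ β := by
      refine Real.rpow_le_rpow hTt.le ?_ hβ.le
      linarith [hτ.2]
    calc ‖y‖ ≤ 2 * ‖x‖ := hy
      _ ≤ 2 * (ρ * (T - t) ^ β) := by gcongr
      _ = (2 * ρ) * (T - t) ^ β := by ring
      _ ≤ R * (T - t) ^ β := by gcongr
      _ ≤ R * (T - τ) ^ β := by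
          gcongr
          linarith
  have hxn : ‖x‖ ^ (n + 1) ≤ ρ ^ (n + 1) * (T - t) ^ γ := by
    calc ‖x‖ ^ (n + 1) ≤ (ρ * (T - t) ^ β) ^ (n + 1) := by gcongr
      _ = ρ ^ (n + 1) * (T - t) ^ γ := by
          rw [mul_pow, ← Real.rpow_natCast ((T - t) ^ β), ← Real.rpow_mul hTt.le, hγ]
          push_cast
          rw [mul_comm β]
  have hMc : ContinuousOn (fun τ => A * (T - τ) ^ (-1 - γ)) (Icc t₀ t) := by
    refine continuousOn_const.mul (ContinuousOn.rpow_const (by fun_prop) ?_)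
    intro τ hτ
    exact Or.inl (by linarith [hτ.2] : 0 < T - τ).ne'
  have hI : ‖x‖ ^ (n + 1) * ∫ τ in t₀..t, A * (T - τ) ^ (-1 - γ) ≤ 1 / 4 := by
    have h1 := integral_rate (A := A) hγ0 hA ht.1 ht.2
    have h0 : 0 ≤ A / γ * (T - t) ^ (-γ) := by positivity
    calc ‖x‖ ^ (n + 1) * ∫ τ in t₀..t, A * (T - τ) ^ (-1 - γ)
        ≤ (ρ ^ (n + 1) * (T - t) ^ γ) * (A / γ * (T - t) ^ (-γ)) := by
          refine mul_le_mul hxn h1 ?_ (by positivity)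
          refine intervalIntegral.integral_nonneg ht.1 fun τ hτ => ?_
          have : 0 < T - τ := by linarith [hτ.2]
          positivity
      _ = (4 * A * ρ ^ (n + 1)) / (4 * γ) * ((T - t) ^ γ * (T - t) ^ (-γ)) := by
          field_simp
      _ = (4 * A * ρ ^ (n + 1)) / (4 * γ) := by
          rw [← Real.rpow_add hTt, add_neg_cancel, Real.rpow_zero, mul_one]
      _ ≤ 1 / 4 := by
          rw [div_le_div_iff₀ (by positivity) (by norm_num)]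
          linarith
  obtain ⟨a, ha1, ha2⟩ := frozen_bound h ht₀.1 ht.1 ht.2 (fun τ hτ => hk τ (hsub0 τ hτ))
    (fun τ hτ => hz τ (hsub0 τ hτ)) hMc
    (fun τ hτ y hy => hD τ (hsub τ hτ) y (hball τ hτ y hy)) hI
  have h3 := vort_le_of_flat (hk t₀ ht₀) (hz t₀ ht₀) (norm_nonneg x)
    (M := A * (T - t₀) ^ (-1 - γ))
    (fun y hy => hD t₀ ⟨le_rfl, ht₀.2⟩ y (hball t₀ ⟨le_rfl, ht.1⟩ y hy)) ha1
  have h4 : ((T - t) / (T - t₀)) ^ (1 + γ)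
      = (T - t) * (T - t) ^ γ * (T - t₀) ^ (-1 - γ) := by
    rw [Real.div_rpow hTt.le hTt₀.le, div_eq_mul_inv, ← Real.rpow_neg hTt₀.le,
      Real.rpow_add hTt, Real.rpow_one]
    congr 2
    ring
  calc (T - t) * ‖vort (u t) x‖
      ≤ (T - t) * (2 * (4 * ‖x‖ ^ (n + 1) * (A * (T - t₀) ^ (-1 - γ)))) := by
        gcongr
        exact ha2.trans (by gcongr)
    _ ≤ (T - t) * (2 * (4 * (ρ ^ (n + 1) * (T - t) ^ γ) * (A * (T - t₀) ^ (-1 - γ)))) := by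
        gcongr
    _ = 2 * (4 * A * ρ ^ (n + 1)) * ((T - t) * (T - t) ^ γ * (T - t₀) ^ (-1 - γ)) := by ring
    _ ≤ 2 * γ * ((T - t) * (T - t) ^ γ * (T - t₀) ^ (-1 - γ)) := by gcongr
    _ = _ := by rw [h4]

/-- Collapse with an arbitrary length scale `L`. -/
theorem collapse_scale (h : IsC2Solution T u p) {n : ℕ}
    (hk : ∀ τ ∈ Ico 0 T, ContDiff ℝ (n + 2 : ℕ) (u τ))
    (hz : ∀ τ ∈ Ico 0 T, ∀ j < n + 2, iteratedFDeriv ℝ j (u τ) 0 = 0)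
    {L W : ℝ → ℝ} {A R t₀ ρ : ℝ} (hA : 0 ≤ A) (ht₀ : t₀ ∈ Ico 0 T)
    (hL : ∀ τ ∈ Ico t₀ T, HasDerivAt L (-W τ) τ) (hL0 : ∀ τ ∈ Ico t₀ T, 0 < L τ)
    (hW0 : ∀ τ ∈ Ico t₀ T, 0 ≤ W τ) (hWc : ContinuousOn W (Ico t₀ T))
    (hD : ∀ τ ∈ Ico t₀ T, ∀ y, ‖y‖ ≤ R * L τ →
      ‖iteratedFDeriv ℝ (n + 2) (u τ) y‖ ≤ A * W τ / L τ ^ (n + 2))
    (hρ0 : 0 ≤ ρ) (hρR : 2 * ρ ≤ R) (hρ : 4 * A * ρ ^ (n + 1) ≤ (n : ℝ) + 1)
    {t : ℝ} (ht : t ∈ Ico t₀ T) {x : V} (hx : ‖x‖ ≤ ρ * L t) :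
    ‖vort (u t) x‖ ≤ 8 * (A * W t₀ / L t₀ ^ (n + 2)) * ‖x‖ ^ (n + 1) := by
  have hsub : ∀ τ ∈ Icc t₀ t, τ ∈ Ico t₀ T := fun τ hτ => ⟨hτ.1, hτ.2.trans_lt ht.2⟩
  have hsub0 : ∀ τ ∈ Icc t₀ t, τ ∈ Ico 0 T := fun τ hτ =>
    ⟨ht₀.1.trans hτ.1, hτ.2.trans_lt ht.2⟩
  have hLc : ContinuousOn L (Icc t₀ t) := fun τ hτ =>
    (hL τ (hsub τ hτ)).continuousAt.continuousWithinAt
  have hanti : AntitoneOn L (Icc t₀ t) := by
    refine antitoneOn_of_deriv_nonpos (convex_Icc _ _) hLc ?_ ?_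
    · intro τ hτ
      exact (hL τ (hsub τ (interior_subset hτ))).differentiableAt.differentiableWithinAt
    · intro τ hτ
      rw [(hL τ (hsub τ (interior_subset hτ))).deriv]
      linarith [hW0 τ (hsub τ (interior_subset hτ))]
  have hLt := hL0 t (hsub t ⟨ht.1, le_rfl⟩)
  have hball : ∀ τ ∈ Icc t₀ t, ∀ y : V, ‖y‖ ≤ 2 * ‖x‖ → ‖y‖ ≤ R * L τ := by
    intro τ hτ y hy
    have hmono : L t ≤ L τ := hanti hτ ⟨ht.1, le_rfl⟩ hτ.2
    calc ‖y‖ ≤ 2 * ‖x‖ := hy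
      _ ≤ 2 * (ρ * L t) := by gcongr
      _ = (2 * ρ) * L t := by ring
      _ ≤ R * L t := by gcongr
      _ ≤ R * L τ := by
          gcongr
          linarith
  have hMc : ContinuousOn (fun τ => A * W τ / L τ ^ (n + 2)) (Icc t₀ t) := by
    refine ContinuousOn.div (continuousOn_const.mul (hWc.mono hsub)) (hLc.pow _) ?_
    intro τ hτ
    exact (pow_pos (hL0 τ (hsub τ hτ)) _).ne'
  have hint : ∫ τ in t₀..t, A * W τ / L τ ^ (n + 2)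
      ≤ A / ((n + 1) * L t ^ (n + 1)) := by
    have hd : ∀ τ ∈ uIcc t₀ t, HasDerivAt (fun τ => A / ((n + 1) * L τ ^ (n + 1)))
        (A * W τ / L τ ^ (n + 2)) τ := by
      intro τ hτ
      rw [uIcc_of_le ht.1] at hτ
      have hp := hL0 τ (hsub τ hτ)
      have h1 := ((hL τ (hsub τ hτ)).pow (n + 1)).const_mul ((n : ℝ) + 1)
      have h2 : ((n : ℝ) + 1) * L τ ^ (n + 1) ≠ 0 := by positivity
      have h3 := (hasDerivAt_const τ A).div h1 h2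
      refine h3.congr_deriv ?_
      have hp' : L τ ≠ 0 := hp.ne'
      simp only [Nat.add_sub_cancel, Pi.pow_apply]
      push_cast
      field_simp
      ring
    rw [intervalIntegral.integral_eq_sub_of_hasDerivAt hd (by
      refine ContinuousOn.intervalIntegrable ?_
      rw [uIcc_of_le ht.1]
      exact hMc)]
    have := hL0 t₀ ⟨le_rfl, ht₀.2⟩
    have h4 : 0 ≤ A / ((n + 1) * L t₀ ^ (n + 1)) := by positivity
    linarith
  have hI : ‖x‖ ^ (n + 1) * ∫ τ in t₀..t, A * W τ / L τ ^ (n + 2) ≤ 1 / 4 := by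
    have h0 : 0 ≤ ∫ τ in t₀..t, A * W τ / L τ ^ (n + 2) := by
      refine intervalIntegral.integral_nonneg ht.1 fun τ hτ => ?_
      have := hL0 τ (hsub τ hτ)
      have := hW0 τ (hsub τ hτ)
      positivity
    calc ‖x‖ ^ (n + 1) * ∫ τ in t₀..t, A * W τ / L τ ^ (n + 2)
        ≤ (ρ * L t) ^ (n + 1) * (A / ((n + 1) * L t ^ (n + 1))) := by
          gcongr
      _ = (4 * A * ρ ^ (n + 1)) / (4 * ((n : ℝ) + 1)) := by
          have hp' : L t ≠ 0 := hLt.ne'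
          rw [mul_pow]
          field_simp
      _ ≤ 1 / 4 := by
          rw [div_le_div_iff₀ (by positivity) (by norm_num)]
          linarith
  obtain ⟨a, ha1, ha2⟩ := frozen_bound h ht₀.1 ht.1 ht.2 (fun τ hτ => hk τ (hsub0 τ hτ))
    (fun τ hτ => hz τ (hsub0 τ hτ)) hMc
    (fun τ hτ y hy => hD τ (hsub τ hτ) y (hball τ hτ y hy)) hI
  have h3 := vort_le_of_flat (hk t₀ ht₀) (hz t₀ ht₀) (norm_nonneg x)
    (M := A * W t₀ / L t₀ ^ (n + 2))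
    (fun y hy => hD t₀ ⟨le_rfl, ht₀.2⟩ y (hball t₀ ⟨le_rfl, ht.1⟩ y hy)) ha1
  calc ‖vort (u t) x‖ ≤ 2 * (4 * ‖x‖ ^ (n + 1) * (A * W t₀ / L t₀ ^ (n + 2))) :=
        ha2.trans (by gcongr)
    _ = _ := by ring

lemma nrm_le (y : V) : nrm y ≤ 2 * ‖y‖ := by
  unfold nrm
  rw [Real.sqrt_le_left (by positivity)]
  have : ∀ i, y i * y i ≤ ‖y‖ ^ 2 := by
    intro i
    have h1 : |y i| ≤ ‖y‖ := norm_le_pi_norm y i
    rw [← sq, ← sq_abs]
    gcongr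
  simp only [dotProduct, Fin.sum_univ_three]
  nlinarith [this 0, this 1, this 2]

lemma vort_periodic (h : IsClassicalSolution (Ico 0 T) u p) {t : ℝ} (ht : t ∈ Ico 0 T) :
    Periodic3 (vort (u t)) := by
  intro i x
  have := (h.periodic_u t ht).grad i x
  simp only [vort_eq]
  rw [this]

/-- Translates of `x` by the lattice `2πℤ³`. -/
lemma vort_translate (h : IsClassicalSolution (Ico 0 T) u p) {t : ℝ} (ht : t ∈ Ico 0 T) (x : V)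
    (m : Fin 3 → ℤ) : vort (u t) (fun i => x i - 2 * Real.pi * m i) = vort (u t) x := by
  have h1 : (∑ j, m j • bas j) ∈ Pool.Agent.H708R2.EulerSign.Lat := by
    refine AddSubgroup.sum_mem _ fun j _ => ?_
    have hj : bas j ∈ Pool.Agent.H708R2.EulerSign.Lat :=
      Submodule.subset_span (s := Set.range bas) (Set.mem_range_self j)
    exact AddSubgroup.zsmul_mem _ hj _
  have h2 := (vort_periodic h ht).lat h1 (fun i => x i - 2 * Real.pi * m i)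
  rw [← h2]
  congr 1
  ext k
  have h3 : (∑ j, m j • bas j) k = m k * (2 * Real.pi) := by
    simp only [bas_apply, Finset.sum_apply, zsmul_eq_mul]
    rw [Finset.sum_eq_single k]
    · rw [Pi.mul_apply, Pi.intCast_apply, Pi.single_eq_same]
    · intro j _ hj
      rw [Pi.mul_apply, Pi.single_eq_of_ne (Ne.symm hj), mul_zero]
    · simp
  rw [Pi.add_apply, h3]
  ring

/-- The Beale-Kato-Majda integral over the complement of the cores. -/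
theorem bkm_outside (h : IsC2Solution T u p) {n : ℕ}
    (hk : ∀ τ ∈ Ico 0 T, ContDiff ℝ (n + 2 : ℕ) (u τ))
    (hz : ∀ τ ∈ Ico 0 T, ∀ j < n + 2, iteratedFDeriv ℝ j (u τ) 0 = 0)
    {M : ℝ → ℝ} (hMc : ContinuousOn M (Ico 0 T))
    (hM : ∀ τ ∈ Ico 0 T, ∀ y, ‖iteratedFDeriv ℝ (n + 2) (u τ) y‖ ≤ M τ)
    {r : ℝ → ℝ} (hr : ∀ t ∈ Ioo 0 T, 0 ≤ r t ∧ r t ^ (n + 1) * ∫ τ in (0 : ℝ)..t, M τ ≤ 1 / 4)
    (hout : ∫⁻ t in Ioo 0 T, ⨆ x : V, ⨆ (_ : ∀ m : Fin 3 → ℤ,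
      r t < ‖fun i => x i - 2 * Real.pi * m i‖), ENNReal.ofReal (nrm (vort (u t) x)) < ∞) :
    BKMFinite T u := by
  rcases le_or_gt T 0 with hT | hT
  · unfold BKMFinite
    rw [Ioo_eq_empty (not_lt.2 hT)]
    simp
  have h0T : (0 : ℝ) ∈ Ico 0 T := ⟨le_rfl, hT⟩
  obtain ⟨K, hK0, hK⟩ : ∃ C : ℝ, 0 ≤ C ∧ ∀ x, ‖vort (u 0) x‖ ≤ C := by
    have hsub : Icc (0 : ℝ) 0 ⊆ Ico 0 T := fun t ht => ⟨ht.1, ht.2.trans_lt hT⟩
    obtain ⟨C, hC0, hC⟩ := bound_on_slab (f := fun t x => vort (u t) x) (a := 0) (b := 0)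
      ((vort_continuousOn h.sol).mono (prod_mono hsub subset_rfl))
      (fun t ht => vort_periodic h.sol (hsub ht))
    exact ⟨C, hC0, fun x => hC 0 ⟨le_rfl, le_rfl⟩ x⟩
  have hbd : ∀ t ∈ Ioo 0 T, (⨆ x, ENNReal.ofReal (nrm (vort (u t) x)))
      ≤ (⨆ x : V, ⨆ (_ : ∀ m : Fin 3 → ℤ, r t < ‖fun i => x i - 2 * Real.pi * m i‖),
          ENNReal.ofReal (nrm (vort (u t) x))) + ENNReal.ofReal (2 * (2 * K)) := by
    intro t ht
    refine iSup_le fun x => ?_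
    by_cases hx : ∀ m : Fin 3 → ℤ, r t < ‖fun i => x i - 2 * Real.pi * m i‖
    · refine le_add_right ?_
      exact le_iSup₂_of_le x hx le_rfl
    · push Not at hx
      obtain ⟨m, hm⟩ := hx
      refine le_add_left (ENNReal.ofReal_le_ofReal ((nrm_le _).trans ?_))
      rw [← vort_translate h.sol ⟨ht.1.le, ht.2⟩ x m]
      set y : V := fun i => x i - 2 * Real.pi * m i with hy
      have hsub : ∀ τ ∈ Icc 0 t, τ ∈ Ico 0 T := fun τ hτ => ⟨hτ.1, hτ.2.trans_lt ht.2⟩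
      have hI0 : 0 ≤ ∫ τ in (0 : ℝ)..t, M τ :=
        intervalIntegral.integral_nonneg ht.1.le fun τ hτ =>
          (norm_nonneg _).trans (hM τ (hsub τ hτ) 0)
      have hI : ‖y‖ ^ (n + 1) * ∫ τ in (0 : ℝ)..t, M τ ≤ 1 / 4 := by
        refine le_trans ?_ (hr t ht).2
        gcongr
      obtain ⟨a, ha1, ha2⟩ := frozen_bound h le_rfl ht.1.le ht.2
        (fun τ hτ => hk τ (hsub τ hτ)) (fun τ hτ => hz τ (hsub τ hτ))
        (hMc.mono fun τ hτ => hsub τ hτ) (fun τ hτ y _ => hM τ (hsub τ hτ) y) hI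
      linarith [hK a]
  unfold BKMFinite
  calc ∫⁻ t in Ioo 0 T, ⨆ x, ENNReal.ofReal (nrm (vort (u t) x))
      ≤ ∫⁻ t in Ioo 0 T, ((⨆ x : V, ⨆ (_ : ∀ m : Fin 3 → ℤ,
          r t < ‖fun i => x i - 2 * Real.pi * m i‖),
          ENNReal.ofReal (nrm (vort (u t) x))) + ENNReal.ofReal (2 * (2 * K))) :=
        setLIntegral_mono' measurableSet_Ioo hbd
    _ = (∫⁻ t in Ioo 0 T, ⨆ x : V, ⨆ (_ : ∀ m : Fin 3 → ℤ,
          r t < ‖fun i => x i - 2 * Real.pi * m i‖),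
          ENNReal.ofReal (nrm (vort (u t) x)))
        + ∫⁻ _ in Ioo 0 T, ENNReal.ofReal (2 * (2 * K)) := lintegral_add_right _ measurable_const
    _ < ∞ := by
        refine ENNReal.add_lt_top.2 ⟨hout, ?_⟩
        rw [setLIntegral_const]
        exact ENNReal.mul_lt_top ENNReal.ofReal_lt_top (by simp)

end Pool.Agent.L5helper80.EC
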