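import Pool.Agent.L5helper80.EC.Path

/-!
# Frozen vorticity near the centre of a symmetric flow
-/

open MeasureTheory Set
open scoped ENNReal NNReal Topology Pointwise Matrix

namespace Pool.Agent.L5helper80.EC

open Pool.Agent.H708R2.EulerSign Pool.Agent.H708R2.EulerTypeI

variable {T : ℝ} {u : ℝ → V → V} {p : ℝ → V → ℝ}

/-- The entry `∂ⱼ vᵢ` of a derivative. -/
noncomputable def ev (j i : Fin 3) : (V →L[ℝ] V) →L[ℝ] ℝ :=
  (ContinuousLinearMap.proj i : V →L[ℝ] ℝ) ∘L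
    (ContinuousLinearMap.apply ℝ V (Pi.single j (1 : ℝ) : V))

lemma ev_apply (j i : Fin 3) (L : V →L[ℝ] V) : ev j i L = L (Pi.single j 1) i := rfl

lemma abs_ev_le (j i : Fin 3) (L : V →L[ℝ] V) : |ev j i L| ≤ ‖L‖ := by
  rw [ev_apply, ← Real.norm_eq_abs]
  refine (norm_le_pi_norm (L (Pi.single j 1)) i).trans ?_
  refine (L.le_opNorm _).trans ?_
  have : ‖(Pi.single j (1 : ℝ) : V)‖ = 1 := by
    rw [Pi.norm_single]; simp
  rw [this, mul_one]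

/-- The curl as a linear map of the derivative. -/
noncomputable def cvL : (V →L[ℝ] V) →L[ℝ] V :=
  ContinuousLinearMap.pi ![ev 1 2 - ev 2 1, ev 2 0 - ev 0 2, ev 0 1 - ev 1 0]

lemma vort_eq_cvL (v : V → V) (x : V) : vort v x = cvL (fderiv ℝ v x) := by
  ext i
  fin_cases i <;> simp [vort, cvL, grad, ev_apply]

lemma norm_cvL_le (L : V →L[ℝ] V) : ‖cvL L‖ ≤ 2 * ‖L‖ := by
  rw [pi_norm_le_iff_of_nonneg (by positivity)]
  intro i
  rw [Real.norm_eq_abs]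
  have h : ∀ a b c d, |ev a b L - ev c d L| ≤ 2 * ‖L‖ := by
    intro a b c d
    refine (abs_sub _ _).trans ?_
    linarith [abs_ev_le a b L, abs_ev_le c d L]
  fin_cases i
  · exact h 1 2 2 1
  · exact h 2 0 0 2
  · exact h 0 1 1 0

lemma two_pow_le (n : ℕ) : (2 : ℝ) ^ n ≤ 2 * n.factorial := by
  induction n with
  | zero => simp
  | succ n ih =>
    rcases Nat.eq_zero_or_pos n with rfl | hn
    · simp
    · rw [Nat.factorial_succ]
      push_cast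
      have h1 : (1 : ℝ) ≤ n := by exact_mod_cast hn
      have h2 : (0 : ℝ) ≤ n.factorial := by positivity
      calc (2 : ℝ) ^ (n + 1) = 2 * 2 ^ n := by ring
        _ ≤ 2 * (2 * n.factorial) := by gcongr
        _ ≤ 2 * (((n : ℝ) + 1) * n.factorial) := by nlinarith

lemma two_mul_pow_div (n : ℕ) {r M y : ℝ} (hr : 0 ≤ r) (hM : 0 ≤ M) (hy0 : 0 ≤ y)
    (hy : y ≤ 2 * r) : M * y ^ n / n.factorial ≤ 2 * r ^ n * M := by
  have h1 : (0 : ℝ) < n.factorial := by positivity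
  rw [div_le_iff₀ h1]
  calc M * y ^ n ≤ M * (2 * r) ^ n := by gcongr
    _ = M * (2 ^ n * r ^ n) := by rw [mul_pow]
    _ ≤ M * ((2 * n.factorial) * r ^ n) := by gcongr; exact two_pow_le n
    _ = 2 * r ^ n * M * n.factorial := by ring

/-- Bounds for the first derivatives near a flat centre. -/
lemma flat_bounds {v : V → V} {n : ℕ} (hv : ContDiff ℝ (n + 2 : ℕ) v)
    (h0 : ∀ j < n + 2, iteratedFDeriv ℝ j v 0 = 0) {M r : ℝ} (hr : 0 ≤ r)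
    (hM : ∀ y, ‖y‖ ≤ 2 * r → ‖iteratedFDeriv ℝ (n + 2) v y‖ ≤ M) {y : V} (hy : ‖y‖ ≤ 2 * r) :
    ‖v y‖ ≤ 2 * r ^ (n + 2) * M ∧ ‖fderiv ℝ v y‖ ≤ 2 * r ^ (n + 1) * M ∧
      ‖fderiv ℝ (fderiv ℝ v) y‖ ≤ 2 * r ^ n * M := by
  have hM0 : 0 ≤ M := (norm_nonneg _).trans (hM 0 (by simpa using hr))
  have hv1 : ContDiff ℝ (n + 1 : ℕ) (fderiv ℝ v) := by
    have h := hv
    rw [show ((n + 2 : ℕ) : WithTop ℕ∞) = ((n + 1 : ℕ) : WithTop ℕ∞) + 1 by push_cast; ring] at h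
    exact (contDiff_succ_iff_fderiv.1 h).2.2
  have hv2 : ContDiff ℝ (n : ℕ) (fderiv ℝ (fderiv ℝ v)) := by
    have h := hv1
    push_cast at h
    exact (contDiff_succ_iff_fderiv.1 h).2.2
  have e1 : ∀ j z, ‖iteratedFDeriv ℝ j (fderiv ℝ v) z‖ = ‖iteratedFDeriv ℝ (j + 1) v z‖ :=
    fun j z => norm_iteratedFDeriv_fderiv
  have e2 : ∀ j z, ‖iteratedFDeriv ℝ j (fderiv ℝ (fderiv ℝ v)) z‖
      = ‖iteratedFDeriv ℝ (j + 2) v z‖ := by
    intro j z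
    rw [norm_iteratedFDeriv_fderiv, norm_iteratedFDeriv_fderiv]
  have b0 := taylor_bound (n + 2) v hv h0 hM y hy
  have b1 := taylor_bound (n + 1) (fderiv ℝ v) hv1 (fun j hj => by
    rw [← norm_eq_zero, e1, h0 (j + 1) (by omega), norm_zero])
    (fun z hz => by rw [e1]; exact hM z hz) y hy
  have b2 := taylor_bound n (fderiv ℝ (fderiv ℝ v)) hv2 (fun j hj => by
    rw [← norm_eq_zero, e2, h0 (j + 2) (by omega), norm_zero])
    (fun z hz => by rw [e2]; exact hM z hz) y hy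
  exact ⟨b0.trans (two_mul_pow_div _ hr hM0 (norm_nonneg _) hy),
    b1.trans (two_mul_pow_div _ hr hM0 (norm_nonneg _) hy),
    b2.trans (two_mul_pow_div _ hr hM0 (norm_nonneg _) hy)⟩

/-- The main estimate for the vorticity near a flat centre. -/
theorem frozen (h : IsC2Solution T u p) {n : ℕ} {s t : ℝ} (hs : 0 ≤ s) (hst : s ≤ t)
    (ht : t < T) (hk : ∀ τ ∈ Icc s t, ContDiff ℝ (n + 2 : ℕ) (u τ))
    (hz : ∀ τ ∈ Icc s t, ∀ j < n + 2, iteratedFDeriv ℝ j (u τ) 0 = 0)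
    {x : V} {M : ℝ → ℝ} (hMc : ContinuousOn M (Icc s t))
    (hM : ∀ τ ∈ Icc s t, ∀ y, ‖y‖ ≤ 2 * ‖x‖ → ‖iteratedFDeriv ℝ (n + 2) (u τ) y‖ ≤ M τ)
    (hI : ‖x‖ ^ (n + 1) * ∫ τ in s..t, M τ ≤ 1 / 4) :
    ∃ a : V, ‖a‖ ≤ 2 * ‖x‖ ∧ ‖a - x‖ ≤ 2 * ‖x‖ ^ (n + 2) * (∫ τ in s..t, M τ) ∧
      ‖vort (u t) x - vort (u s) a‖
        ≤ 4 * ‖x‖ ^ (n + 1) * (∫ τ in s..t, M τ) * ‖vort (u s) a‖ := by
  have hsI : s ∈ Icc s t := ⟨le_rfl, hst⟩
  have hM0 : ∀ τ ∈ Icc s t, 0 ≤ M τ := fun τ hτ =>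
    (norm_nonneg _).trans (hM τ hτ 0 (by simp))
  have hI0 : 0 ≤ ∫ τ in s..t, M τ := intervalIntegral.integral_nonneg hst hM0
  rcases (norm_nonneg x).eq_or_lt with hx0 | hxpos
  · have hx : x = 0 := norm_eq_zero.1 hx0.symm
    subst hx
    have hv0 : ∀ τ ∈ Icc s t, vort (u τ) 0 = 0 := by
      intro τ hτ
      have := (flat_bounds (hk τ hτ) (hz τ hτ) le_rfl (M := M τ) (y := 0)
        (fun y hy => hM τ hτ y (by simpa using hy)) (by simp)).2.1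
      have h1 : fderiv ℝ (u τ) 0 = 0 := by
        rw [← norm_eq_zero]
        refine le_antisymm (this.trans ?_) (norm_nonneg _)
        simp
      rw [vort_eq_cvL, h1, map_zero]
    refine ⟨0, by simp, by simp, ?_⟩
    rw [hv0 s hsI, hv0 t ⟨hst, le_rfl⟩]
    simp
  · set r := ‖x‖ with hr
    set M' : ℝ → ℝ := IccExtend hst ((Icc s t).domRestrict M) with hM'
    have hM'c : Continuous M' := (continuousOn_iff_continuous_domRestrict.1 hMc).Icc_extend'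
    have hM'0 : ∀ τ, 0 ≤ M' τ := fun τ => hM0 _ (projIcc s t hst τ).2
    have hM'e : ∀ τ ∈ Icc s t, M' τ = M τ := fun τ hτ => by
      rw [hM', IccExtend_of_mem hst _ hτ]; rfl
    set N : ℝ → ℝ := fun τ => 2 * r ^ (n + 1) * M' τ with hN
    have hNI : ∫ τ in s..t, N τ = 2 * r ^ (n + 1) * ∫ τ in s..t, M τ := by
      rw [hN, intervalIntegral.integral_const_mul]
      congr 1
      refine intervalIntegral.integral_congr fun τ hτ => ?_
      rw [uIcc_of_le hst] at hτ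
      exact hM'e τ hτ
    have hNI2 : ∫ τ in s..t, N τ ≤ 1 / 2 := by
      rw [hNI]
      nlinarith
    have hNI0 : 0 ≤ ∫ τ in s..t, N τ := by
      rw [hNI]; positivity
    obtain ⟨a, ha1, ha2, ha3⟩ := core h hs hst ht hxpos (x := x) le_rfl (N := N)
      (continuous_const.mul hM'c) (fun τ => by have := hM'0 τ; positivity) hNI2 (by
        intro τ hτ y hy
        have := flat_bounds (hk τ hτ) (hz τ hτ) hxpos.le (hM τ hτ) hy
        simp only [hN, hM'e τ hτ]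
        refine ⟨this.1.trans (le_of_eq ?_), this.2.1⟩
        ring)
    refine ⟨a, ha1, ha2.trans (le_of_eq ?_), ha3.trans ?_⟩
    · rw [hNI]; ring
    · have h1 := Real.abs_exp_sub_one_le (x := ∫ τ in s..t, N τ) (by
        rw [abs_of_nonneg hNI0]; linarith)
      rw [abs_of_nonneg hNI0] at h1
      have h2 := (le_abs_self _).trans h1
      calc (Real.exp (∫ τ in s..t, N τ) - 1) * ‖vort (u s) a‖
          ≤ (2 * ∫ τ in s..t, N τ) * ‖vort (u s) a‖ := by gcongr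
        _ = 4 * r ^ (n + 1) * (∫ τ in s..t, M τ) * ‖vort (u s) a‖ := by rw [hNI]; ring

/-- No amplification in the core. -/
theorem frozen_bound (h : IsC2Solution T u p) {n : ℕ} {s t : ℝ} (hs : 0 ≤ s) (hst : s ≤ t)
    (ht : t < T) (hk : ∀ τ ∈ Icc s t, ContDiff ℝ (n + 2 : ℕ) (u τ))
    (hz : ∀ τ ∈ Icc s t, ∀ j < n + 2, iteratedFDeriv ℝ j (u τ) 0 = 0)
    {x : V} {M : ℝ → ℝ} (hMc : ContinuousOn M (Icc s t))
    (hM : ∀ τ ∈ Icc s t, ∀ y, ‖y‖ ≤ 2 * ‖x‖ → ‖iteratedFDeriv ℝ (n + 2) (u τ) y‖ ≤ M τ)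
    (hI : ‖x‖ ^ (n + 1) * ∫ τ in s..t, M τ ≤ 1 / 4) :
    ∃ a : V, ‖a‖ ≤ 2 * ‖x‖ ∧ ‖vort (u t) x‖ ≤ 2 * ‖vort (u s) a‖ := by
  obtain ⟨a, ha1, -, ha3⟩ := frozen h hs hst ht hk hz hMc hM hI
  refine ⟨a, ha1, ?_⟩
  have h1 : 4 * ‖x‖ ^ (n + 1) * (∫ τ in s..t, M τ) * ‖vort (u s) a‖ ≤ 1 * ‖vort (u s) a‖ := by
    gcongr
    nlinarith
  have h2 : ‖vort (u t) x‖ ≤ ‖vort (u s) a‖ + ‖vort (u t) x - vort (u s) a‖ := by
    have := norm_add_le (vort (u s) a) (vort (u t) x - vort (u s) a)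
    rwa [add_sub_cancel] at this
  linarith

/-- The vorticity is frozen near the centre. -/
theorem frozen_diff (h : IsC2Solution T u p) {n : ℕ} {s t : ℝ} (hs : 0 ≤ s) (hst : s ≤ t)
    (ht : t < T) (hk : ∀ τ ∈ Icc s t, ContDiff ℝ (n + 2 : ℕ) (u τ))
    (hz : ∀ τ ∈ Icc s t, ∀ j < n + 2, iteratedFDeriv ℝ j (u τ) 0 = 0)
    {x : V} {M : ℝ → ℝ} (hMc : ContinuousOn M (Icc s t))
    (hM : ∀ τ ∈ Icc s t, ∀ y, ‖y‖ ≤ 2 * ‖x‖ → ‖iteratedFDeriv ℝ (n + 2) (u τ) y‖ ≤ M τ)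
    (hI : ‖x‖ ^ (n + 1) * ∫ τ in s..t, M τ ≤ 1 / 4) {N0 N1 : ℝ}
    (hN0 : ∀ y, ‖y‖ ≤ 2 * ‖x‖ → ‖vort (u s) y‖ ≤ N0)
    (hN1 : ∀ y, ‖y‖ ≤ 2 * ‖x‖ → ‖fderiv ℝ (vort (u s)) y‖ ≤ N1) :
    ‖vort (u t) x - vort (u s) x‖
      ≤ ‖x‖ ^ (n + 1) * (∫ τ in s..t, M τ) * (4 * N0 + 2 * ‖x‖ * N1) := by
  have hsI : s ∈ Icc s t := ⟨le_rfl, hst⟩
  obtain ⟨a, ha1, ha2, ha3⟩ := frozen h hs hst ht hk hz hMc hM hI
  have hI0 : 0 ≤ ∫ τ in s..t, M τ := intervalIntegral.integral_nonneg hst fun τ hτ =>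
    (norm_nonneg _).trans (hM τ hτ 0 (by simp))
  have hN10 : 0 ≤ N1 := (norm_nonneg _).trans (hN1 0 (by simp))
  have hdiff : Differentiable ℝ (vort (u s)) := by
    have h1 : ContDiff ℝ 1 (fderiv ℝ (u s)) := (hk s hsI).fderiv_right (m := 1) (by
      have : ((1 : ℕ) + 1 : WithTop ℕ∞) ≤ ((n + 2 : ℕ) : WithTop ℕ∞) := by
        exact_mod_cast (by omega : 1 + 1 ≤ n + 2)
      simpa using this)
    have h2 : vort (u s) = fun x => cvL (fderiv ℝ (u s) x) := funext fun x => vort_eq_cvL _ x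
    rw [h2]
    exact cvL.differentiable.comp (h1.differentiable one_ne_zero)
  have hx2 : ‖x‖ ≤ 2 * ‖x‖ := by linarith [norm_nonneg x]
  have hseg : ‖vort (u s) a - vort (u s) x‖ ≤ N1 * ‖a - x‖ := by
    have hconv : Convex ℝ (Metric.closedBall (0 : V) (2 * ‖x‖)) := convex_closedBall _ _
    refine hconv.norm_image_sub_le_of_norm_fderiv_le (𝕜 := ℝ)
      (fun y _ => hdiff y) (fun y hy => hN1 y (by simpa using hy)) ?_ ?_
    · simpa using hx2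
    · simpa using ha1
  calc ‖vort (u t) x - vort (u s) x‖
      ≤ ‖vort (u t) x - vort (u s) a‖ + ‖vort (u s) a - vort (u s) x‖ := by
        have := norm_add_le (vort (u t) x - vort (u s) a) (vort (u s) a - vort (u s) x)
        rwa [sub_add_sub_cancel] at this
    _ ≤ 4 * ‖x‖ ^ (n + 1) * (∫ τ in s..t, M τ) * N0
        + N1 * (2 * ‖x‖ ^ (n + 2) * (∫ τ in s..t, M τ)) := by
        refine add_le_add (ha3.trans ?_) (hseg.trans ?_)
        · gcongr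
          exact hN0 a ha1
        · gcongr
    _ = _ := by ring

end Pool.Agent.L5helper80.EC
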