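import Pool.Agent.L5helper80.EC.Taylor

/-!
# The vorticity in the core of a flow with a flat centre
-/

open MeasureTheory Set
open scoped ENNReal NNReal Topology Pointwise Matrix

namespace Pool.Agent.L5helper80.EC

open Pool.Agent.H708R2.EulerSign Pool.Agent.H708R2.EulerTypeI

variable {T : ℝ} {u : ℝ → V → V} {p : ℝ → V → ℝ}

lemma prim_hasDerivAt {N : ℝ → ℝ} (hN : Continuous N) (s τ : ℝ) :
    HasDerivAt (fun τ => ∫ σ in s..τ, N σ) (N τ) τ :=
  (hN.integral_hasStrictDerivAt s τ).hasDerivAt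

/-- Growth of the solution of `W' = A W`. -/
lemma linear_growth {W W1 : ℝ → V} {s t : ℝ} (hst : s ≤ t) {N : ℝ → ℝ} (hN : Continuous N)
    (hN0 : ∀ τ, 0 ≤ N τ)
    (hW : ∀ τ ∈ Icc s t, HasDerivWithinAt W (W1 τ) (Icc s t) τ)
    (hb : ∀ τ ∈ Icc s t, ‖W1 τ‖ ≤ N τ * ‖W τ‖) :
    ‖W t - W s‖ ≤ (Real.exp (∫ τ in s..t, N τ) - 1) * ‖W s‖ := by
  have key : ∀ ε : ℝ, 0 < ε → ‖W t - W s‖
      ≤ (Real.exp ((∫ τ in s..t, N τ) + ε * (t - s)) - 1) * (‖W s‖ + ε) := by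
    intro ε hε
    have hB : ∀ τ : ℝ, HasDerivAt
        (fun τ => (Real.exp ((∫ σ in s..τ, N σ) + ε * (τ - s)) - 1) * (‖W s‖ + ε))
        (Real.exp ((∫ σ in s..τ, N σ) + ε * (τ - s)) * (N τ + ε) * (‖W s‖ + ε)) τ := by
      intro τ
      have h1 : HasDerivAt (fun τ => (∫ σ in s..τ, N σ) + ε * (τ - s)) (N τ + ε) τ := by
        have h2 : HasDerivAt (fun τ : ℝ => ε * (τ - s)) (ε * 1) τ :=
          ((hasDerivAt_id τ).sub_const s).const_mul ε
        rw [mul_one] at h2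
        exact (prim_hasDerivAt hN s τ).add h2
      exact (h1.exp.sub_const 1).mul_const _
    have := image_norm_le_of_norm_deriv_right_lt_deriv_boundary (a := s) (b := t)
      (f := fun τ => W τ - W s) (f' := W1)
      (fun τ hτ => ((hW τ hτ).continuousWithinAt).sub continuousWithinAt_const)
      (fun τ hτ => (right_of_Icc hτ (hW τ ⟨hτ.1, hτ.2.le⟩)).sub_const _)
      (by simp) hB (by
        intro τ hτ hEq
        have h1 := hb τ ⟨hτ.1, hτ.2.le⟩
        have h2 : ‖W τ‖ ≤ ‖W s‖ + ‖W τ - W s‖ := by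
          have := norm_add_le (W s) (W τ - W s)
          rwa [add_sub_cancel] at this
        rw [hEq] at h2
        have h3 : 0 ≤ ‖W s‖ := norm_nonneg _
        have h4 := Real.exp_pos ((∫ σ in s..τ, N σ) + ε * (τ - s))
        have h5 : ‖W τ‖ ≤ Real.exp ((∫ σ in s..τ, N σ) + ε * (τ - s)) * (‖W s‖ + ε) := by
          nlinarith
        calc ‖W1 τ‖ ≤ N τ * ‖W τ‖ := h1
          _ ≤ N τ * (Real.exp ((∫ σ in s..τ, N σ) + ε * (τ - s)) * (‖W s‖ + ε)) := by
              gcongr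
              exact hN0 τ
          _ < Real.exp ((∫ σ in s..τ, N σ) + ε * (τ - s)) * (N τ + ε) * (‖W s‖ + ε) := by
              have : 0 < Real.exp ((∫ σ in s..τ, N σ) + ε * (τ - s)) * ε * (‖W s‖ + ε) := by
                positivity
              nlinarith)
      (show t ∈ Icc s t from ⟨hst, le_rfl⟩)
    exact this
  have hlim : Filter.Tendsto (fun ε : ℝ =>
      (Real.exp ((∫ τ in s..t, N τ) + ε * (t - s)) - 1) * (‖W s‖ + ε)) (𝓝[>] 0)
      (𝓝 ((Real.exp ((∫ τ in s..t, N τ) + 0 * (t - s)) - 1) * (‖W s‖ + 0))) := by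
    refine Filter.Tendsto.mono_left ?_ nhdsWithin_le_nhds
    refine Continuous.tendsto ?_ 0
    fun_prop
  simp only [zero_mul, add_zero] at hlim
  refine ge_of_tendsto hlim ?_
  filter_upwards [self_mem_nhdsWithin] with ε hε
  exact key ε hε

lemma vort_continuousOn (h : IsClassicalSolution (Ico 0 T) u p) :
    ContinuousOn (fun z : ℝ × V => vort (u z.1) z.2) (Ico 0 T ×ˢ univ) := by
  have hg := fun i j => grad_continuousOn h i j
  rw [continuousOn_pi]
  intro i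
  fin_cases i
  · exact (hg 2 1).sub (hg 1 2)
  · exact (hg 0 2).sub (hg 2 0)
  · exact (hg 1 0).sub (hg 0 1)

/-- Growth of the vorticity along a trajectory, up to the initial time. -/
lemma vort_growth (h : IsC2Solution T u p) {X : ℝ → V} {s t : ℝ} (hX : IsTraj u X s t)
    (hs : 0 ≤ s) (hst : s ≤ t) (ht : t < T) {N : ℝ → ℝ} (hN : Continuous N)
    (hN0 : ∀ τ, 0 ≤ N τ) (hb : ∀ τ ∈ Icc s t, ‖fderiv ℝ (u τ) (X τ)‖ ≤ N τ) :
    ‖vort (u t) (X t) - vort (u s) (X s)‖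
      ≤ (Real.exp (∫ τ in s..t, N τ) - 1) * ‖vort (u s) (X s)‖ := by
  -- positive initial time
  have pos : ∀ s', 0 < s' → s ≤ s' → s' ≤ t → ‖vort (u t) (X t) - vort (u s') (X s')‖
      ≤ (Real.exp (∫ τ in s'..t, N τ) - 1) * ‖vort (u s') (X s')‖ := by
    intro s' hs' hss' hst'
    have hX' : IsTraj u X s' t := fun τ hτ =>
      (hX τ ⟨hss'.trans hτ.1, hτ.2⟩).mono (Icc_subset_Icc_left hss')
    have hsub : Icc s' t ⊆ Ioo 0 T := fun τ hτ => ⟨hs'.trans_le hτ.1, hτ.2.trans_lt ht⟩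
    refine linear_growth (W := fun τ => vort (u τ) (X τ)) hst' hN hN0
      (fun τ hτ => vort_deriv h hX' hsub hτ) (fun τ hτ => ?_)
    rw [← grad_eq_toMatrix]
    exact (ContinuousLinearMap.le_opNorm _ _).trans
      (mul_le_mul_of_nonneg_right (hb τ ⟨hss'.trans hτ.1, hτ.2⟩) (norm_nonneg _))
  rcases hst.eq_or_lt with rfl | hlt
  · simp
  -- limit
  have hXc : ContinuousOn X (Icc s t) := fun τ hτ => (hX τ hτ).continuousWithinAt
  have hWc : ContinuousWithinAt (fun τ => vort (u τ) (X τ)) (Icc s t) s := by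
    have h1 := vort_continuousOn h.sol (s, X s) ⟨⟨hs, hst.trans_lt ht⟩, mem_univ _⟩
    have h2 : ContinuousWithinAt (fun τ => ((τ, X τ) : ℝ × V)) (Icc s t) s :=
      continuousWithinAt_id.prodMk (hXc s ⟨le_rfl, hst⟩)
    have h3 : MapsTo (fun τ => ((τ, X τ) : ℝ × V)) (Icc s t) (Ico 0 T ×ˢ univ) :=
      fun τ hτ => ⟨⟨hs.trans hτ.1, hτ.2.trans_lt ht⟩, mem_univ _⟩
    exact ContinuousWithinAt.comp (g := fun z : ℝ × V => vort (u z.1) z.2)
      (f := fun τ => ((τ, X τ) : ℝ × V)) h1 h2 h3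
  have hne : (𝓝[Ioc s t] s).NeBot := by
    rw [nhdsWithin_Ioc_eq_nhdsGT hlt]; infer_instance
  have hWl : Filter.Tendsto (fun τ => vort (u τ) (X τ)) (𝓝[Ioc s t] s)
      (𝓝 (vort (u s) (X s))) := hWc.mono_left (nhdsWithin_mono _ Ioc_subset_Icc_self)
  have hIl : Filter.Tendsto (fun s' => ∫ τ in s'..t, N τ) (𝓝[Ioc s t] s)
      (𝓝 (∫ τ in s..t, N τ)) := by
    refine Filter.Tendsto.mono_left ?_ nhdsWithin_le_nhds
    have hc : Continuous (fun s' => -∫ τ in t..s', N τ) := by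
      refine Continuous.neg ?_
      exact continuous_iff_continuousAt.2 fun τ => (prim_hasDerivAt hN t τ).continuousAt
    have : (fun s' => ∫ τ in s'..t, N τ) = fun s' => -∫ τ in t..s', N τ := by
      ext s'; exact intervalIntegral.integral_symm _ _
    rw [this, intervalIntegral.integral_symm t s]
    exact hc.tendsto s
  have hl : Filter.Tendsto (fun s' => ‖vort (u t) (X t) - vort (u s') (X s')‖) (𝓝[Ioc s t] s)
      (𝓝 ‖vort (u t) (X t) - vort (u s) (X s)‖) := (tendsto_const_nhds.sub hWl).norm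
  have hr : Filter.Tendsto (fun s' => (Real.exp (∫ τ in s'..t, N τ) - 1)
      * ‖vort (u s') (X s')‖) (𝓝[Ioc s t] s)
      (𝓝 ((Real.exp (∫ τ in s..t, N τ) - 1) * ‖vort (u s) (X s)‖)) :=
    (((Real.continuous_exp.tendsto _).comp hIl).sub_const 1).mul hWl.norm
  refine le_of_tendsto_of_tendsto hl hr ?_
  filter_upwards [self_mem_nhdsWithin] with s' hs'
  exact pos s' (hs.trans_lt hs'.1) hs'.1.le hs'.2

/-- Confinement of a trajectory near the centre. -/
lemma confine {X : ℝ → V} {s t : ℝ} (hX : IsTraj u X s t) (hst : s ≤ t) {r : ℝ} (hr : 0 < r)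
    {N : ℝ → ℝ} (hN : Continuous N) (hN0 : ∀ τ, 0 ≤ N τ) (hxr : ‖X t‖ ≤ r)
    (hI : ∫ τ in s..t, N τ ≤ 1 / 2)
    (hb : ∀ τ ∈ Icc s t, ∀ y, ‖y‖ ≤ 2 * r → ‖u τ y‖ ≤ r * N τ) :
    (∀ τ ∈ Icc s t, ‖X τ‖ ≤ 2 * r) ∧ ‖X s - X t‖ ≤ r * ∫ τ in s..t, N τ := by
  set Y : ℝ → V := fun σ => X (t - σ) with hY
  set J : ℝ → ℝ := fun σ => ∫ τ in (t - σ)..t, N τ with hJ
  have hts : 0 ≤ t - s := sub_nonneg.2 hst
  have hmem : ∀ σ ∈ Icc 0 (t - s), t - σ ∈ Icc s t := fun σ hσ =>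
    ⟨by linarith [hσ.2], by linarith [hσ.1]⟩
  have hYd : ∀ σ ∈ Icc 0 (t - s), HasDerivWithinAt Y (-u (t - σ) (Y σ)) (Icc 0 (t - s)) σ := by
    intro σ hσ
    have h1 : HasDerivWithinAt (fun σ : ℝ => t - σ) (-1) (Icc 0 (t - s)) σ := by
      simpa using (hasDerivWithinAt_id σ _).const_sub t
    have h2 := HasDerivWithinAt.scomp (h := fun σ : ℝ => t - σ) (g₁ := X) σ
      (hX (t - σ) (hmem σ hσ)) h1 (fun τ hτ => hmem τ hτ)
    rw [neg_one_smul] at h2
    exact h2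
  have hJd : ∀ σ, HasDerivAt J (N (t - σ)) σ := by
    intro σ
    have h1 : HasDerivAt (fun σ : ℝ => t - σ) (-1) σ := by
      simpa using (hasDerivAt_id σ).const_sub t
    have h2 : HasDerivAt (fun σ => ∫ τ in t..(t - σ), N τ) (N (t - σ) * (-1)) σ :=
      (prim_hasDerivAt hN t (t - σ)).comp σ h1
    have h3 : J = fun σ => -∫ τ in t..(t - σ), N τ := by
      ext σ; exact intervalIntegral.integral_symm _ _
    rw [h3]
    refine h2.neg.congr_deriv ?_
    ring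
  have hJle : ∀ σ ∈ Icc 0 (t - s), J σ ≤ ∫ τ in s..t, N τ := by
    intro σ hσ
    have h1 := intervalIntegral.integral_add_adjacent_intervals
      (hN.intervalIntegrable (μ := volume) s (t - σ)) (hN.intervalIntegrable (t - σ) t)
    have h2 : 0 ≤ ∫ τ in s..(t - σ), N τ :=
      intervalIntegral.integral_nonneg (hmem σ hσ).1 fun τ _ => hN0 τ
    simp only [hJ]
    linarith
  -- confinement
  have conf : ∀ σ ∈ Icc 0 (t - s), ‖Y σ‖ ≤ 2 * r := by
    set ε : ℝ := r / (2 * (t - s) + 1) with hε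
    have hε0 : 0 < ε := by positivity
    have hε1 : ε * (t - s) ≤ r / 2 := by
      rw [hε, div_mul_eq_mul_div, div_le_div_iff₀ (by positivity) (by positivity)]
      nlinarith
    have hB : ∀ σ : ℝ, HasDerivAt (fun σ => r + r * J σ + ε * σ) (r * N (t - σ) + ε) σ := by
      intro σ
      have h1 : HasDerivAt (fun σ : ℝ => ε * σ) ε σ := by
        simpa using (hasDerivAt_id σ).const_mul ε
      exact (((hJd σ).const_mul r).const_add r).add h1
    have hBle : ∀ σ ∈ Icc 0 (t - s), r + r * J σ + ε * σ ≤ 2 * r := by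
      intro σ hσ
      have h1 : r * J σ ≤ r * (1 / 2) := by
        gcongr
        exact (hJle σ hσ).trans hI
      have h2 : ε * σ ≤ ε * (t - s) := by gcongr; exact hσ.2
      linarith
    have := image_norm_le_of_norm_deriv_right_lt_deriv_boundary (a := 0) (b := t - s)
      (f := Y) (f' := fun σ => -u (t - σ) (Y σ))
      (fun σ hσ => (hYd σ hσ).continuousWithinAt)
      (fun σ hσ => right_of_Icc hσ (hYd σ ⟨hσ.1, hσ.2.le⟩))
      (by simpa [hY, hJ] using hxr) hB (by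
        intro σ hσ hEq
        have hσ' : σ ∈ Icc 0 (t - s) := ⟨hσ.1, hσ.2.le⟩
        have h1 : ‖Y σ‖ ≤ 2 * r := hEq.trans_le (hBle σ hσ')
        rw [norm_neg]
        exact (hb (t - σ) (hmem σ hσ') _ h1).trans_lt (by linarith))
    intro σ hσ
    exact (this hσ).trans (hBle σ hσ)
  refine ⟨fun τ hτ => ?_, ?_⟩
  · have h1 := conf (t - τ) ⟨by linarith [hτ.2], by linarith [hτ.1]⟩
    simpa [hY] using h1
  · have := image_norm_le_of_norm_deriv_right_le_deriv_boundary (a := 0) (b := t - s)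
      (f := fun σ => Y σ - X t) (f' := fun σ => -u (t - σ) (Y σ))
      (fun σ hσ => (hYd σ hσ).continuousWithinAt.sub continuousWithinAt_const)
      (fun σ hσ => (right_of_Icc hσ (hYd σ ⟨hσ.1, hσ.2.le⟩)).sub_const _)
      (B := fun σ => r * J σ) (B' := fun σ => r * N (t - σ))
      (by simp [hY, hJ]) (fun σ => (hJd σ).const_mul r) (by
        intro σ hσ
        have hσ' : σ ∈ Icc 0 (t - s) := ⟨hσ.1, hσ.2.le⟩
        rw [norm_neg]
        exact hb (t - σ) (hmem σ hσ') _ (conf σ hσ'))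
      (show t - s ∈ Icc 0 (t - s) from ⟨hts, le_rfl⟩)
    simpa [hY, hJ] using this

/-- The vorticity in the core. -/
theorem core (h : IsC2Solution T u p) {s t : ℝ} (hs : 0 ≤ s) (hst : s ≤ t) (ht : t < T)
    {x : V} {r : ℝ} (hr : 0 < r) (hx : ‖x‖ ≤ r) {N : ℝ → ℝ} (hN : Continuous N)
    (hN0 : ∀ τ, 0 ≤ N τ) (hI : ∫ τ in s..t, N τ ≤ 1 / 2)
    (hb : ∀ τ ∈ Icc s t, ∀ y, ‖y‖ ≤ 2 * r → ‖u τ y‖ ≤ r * N τ ∧ ‖fderiv ℝ (u τ) y‖ ≤ N τ) :
    ∃ a : V, ‖a‖ ≤ 2 * r ∧ ‖a - x‖ ≤ r * (∫ τ in s..t, N τ) ∧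
      ‖vort (u t) x - vort (u s) a‖
        ≤ (Real.exp (∫ τ in s..t, N τ) - 1) * ‖vort (u s) a‖ := by
  obtain ⟨X, hX, hXt⟩ := exists_traj h.sol hs hst ht x
  have hc := confine hX hst hr hN hN0 (by rw [hXt]; exact hx) hI
    (fun τ hτ y hy => (hb τ hτ y hy).1)
  refine ⟨X s, hc.1 s ⟨le_rfl, hst⟩, ?_, ?_⟩
  · rw [← hXt]; exact hc.2
  · have := vort_growth h hX hs hst ht hN hN0
      (fun τ hτ => (hb τ hτ _ (hc.1 τ hτ)).2)
    rwa [hXt] at this

end Pool.Agent.L5helper80.EC
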