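import Pool.Agent.L5helper80.EC.Uniq

/-!
# Symmetries of the cube and the Euler equations

If the initial velocity commutes with a symmetry of the cube, so does the solution at all times.
If only scalar matrices commute with all elements of a set `S` of symmetries, the velocity and its
gradient vanish at the centre; if `-1 ∈ S`, the second derivative also vanishes there.
-/

open MeasureTheory Set
open scoped ENNReal NNReal Topology Pointwise Matrix

namespace Pool.Agent.L5helper80.EC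

open Pool.Agent.H708R2.EulerSign Pool.Agent.H708R2.EulerTypeI

/-- `R` is one of the 48 symmetries of the cube: an orthogonal matrix with integer entries. -/
def IsCubeSymmetry (R : Matrix (Fin 3) (Fin 3) ℝ) : Prop :=
  R * Rᵀ = 1 ∧ ∀ i j, ∃ n : ℤ, R i j = n

/-- The field `v` commutes with `R`. -/
def Equivariant (R : Matrix (Fin 3) (Fin 3) ℝ) (v : V → V) : Prop :=
  ∀ x, v (R *ᵥ x) = R *ᵥ v x

/-- `R` as a continuous linear map. -/
noncomputable def clm (R : Matrix (Fin 3) (Fin 3) ℝ) : V →L[ℝ] V :=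
  LinearMap.toContinuousLinearMap (Matrix.toLin' R)

@[simp] lemma clm_apply (R : Matrix (Fin 3) (Fin 3) ℝ) (x : V) : clm R x = R *ᵥ x := by
  simp [clm]

lemma grad_eq_toMatrix (v : V → V) (x : V) (y : V) : fderiv ℝ v x y = (grad v x) *ᵥ y := by
  ext i
  rw [← sum_mul_clm]
  simp only [Matrix.mulVec, dotProduct, grad, Matrix.of_apply]
  exact Finset.sum_congr rfl fun j _ => mul_comm _ _

lemma IsCubeSymmetry.lat {R : Matrix (Fin 3) (Fin 3) ℝ} (hR : IsCubeSymmetry R) (i : Fin 3) :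
    R *ᵥ (Pi.single i (2 * Real.pi)) ∈ Pool.Agent.H708R2.EulerSign.Lat := by
  choose n hn using hR.2
  have : R *ᵥ (Pi.single i (2 * Real.pi)) = ∑ j, n j i • bas j := by
    ext k
    simp only [bas_apply, Finset.sum_apply, Pi.smul_apply, zsmul_eq_mul, Matrix.mulVec_single,
      MulOpposite.smul_eq_mul_unop, MulOpposite.unop_op, Matrix.col_apply]
    rw [Finset.sum_eq_single k]
    · simp [hn]
    · intro j _ hj
      simp [Ne.symm hj]
    · simp
  rw [this]
  refine AddSubgroup.sum_mem _ fun j _ => ?_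
  have hj : bas j ∈ Pool.Agent.H708R2.EulerSign.Lat :=
    Submodule.subset_span (s := Set.range bas) (Set.mem_range_self j)
  exact AddSubgroup.zsmul_mem _ hj _

lemma hasFDerivAt_push {R : Matrix (Fin 3) (Fin 3) ℝ} {v : V → V} (x : V)
    (hv : DifferentiableAt ℝ v (R *ᵥ x)) :
    HasFDerivAt (fun x => Rᵀ *ᵥ v (R *ᵥ x)) (clm Rᵀ ∘L fderiv ℝ v (R *ᵥ x) ∘L clm R) x := by
  have h1 : HasFDerivAt (fun x : V => R *ᵥ x) (clm R) x := by
    have := (clm R).hasFDerivAt (x := x)
    exact this.congr_of_eventuallyEq (Filter.Eventually.of_forall fun y => (clm_apply R y).symm)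
  have h2 : HasFDerivAt (fun y : V => Rᵀ *ᵥ y) (clm Rᵀ) (v (R *ᵥ x)) := by
    have := (clm Rᵀ).hasFDerivAt (x := v (R *ᵥ x))
    exact this.congr_of_eventuallyEq (Filter.Eventually.of_forall fun y => (clm_apply Rᵀ y).symm)
  exact h2.comp x (hv.hasFDerivAt.comp x h1)

lemma grad_push {R : Matrix (Fin 3) (Fin 3) ℝ} {v : V → V} (x : V)
    (hv : DifferentiableAt ℝ v (R *ᵥ x)) :
    grad (fun x => Rᵀ *ᵥ v (R *ᵥ x)) x = Rᵀ * grad v (R *ᵥ x) * R := by
  ext i j
  show fderiv ℝ (fun x => Rᵀ *ᵥ v (R *ᵥ x)) x (Pi.single j 1) i = _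
  rw [(hasFDerivAt_push x hv).fderiv]
  simp only [ContinuousLinearMap.comp_apply, clm_apply, grad_eq_toMatrix]
  rw [Matrix.mulVec_mulVec, Matrix.mulVec_mulVec]
  simp [Matrix.mulVec_single]

/-- The solution transported by a symmetry of the cube. -/
theorem push_sol {T : ℝ} {u : ℝ → V → V} {p : ℝ → V → ℝ} {R : Matrix (Fin 3) (Fin 3) ℝ}
    (hR : IsCubeSymmetry R) (h : IsClassicalSolution (Ico 0 T) u p) :
    IsClassicalSolution (Ico 0 T) (fun t x => Rᵀ *ᵥ u t (R *ᵥ x)) (fun t x => p t (R *ᵥ x)) := by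
  have hR2 : Rᵀ * R = 1 := mul_eq_one_comm.1 hR.1
  have hmap : ContDiff ℝ 1 (fun z : ℝ × V => ((z.1, R *ᵥ z.2) : ℝ × V)) := by
    have : ContDiff ℝ 1 (fun z : ℝ × V => ((z.1, clm R z.2) : ℝ × V)) := by fun_prop
    simpa using this
  have hmaps : MapsTo (fun z : ℝ × V => ((z.1, R *ᵥ z.2) : ℝ × V)) (Ico 0 T ×ˢ univ)
      (Ico 0 T ×ˢ univ) := fun z hz => ⟨hz.1, mem_univ _⟩
  have hu : ∀ t ∈ Ico 0 T, ∀ x, DifferentiableAt ℝ (u t) x := fun t ht x =>
    (contDiff_slice h.contDiffOn_u ht).differentiable one_ne_zero x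
  have hp : ∀ t ∈ Ico 0 T, ∀ x, DifferentiableAt ℝ (p t) x := fun t ht x =>
    (contDiff_slice h.contDiffOn_p ht).differentiable one_ne_zero x
  refine ⟨?_, ?_, ?_, ?_, ?_, ?_⟩
  · have h1 := h.contDiffOn_u.comp hmap.contDiffOn hmaps
    have h2 : ContDiff ℝ 1 (fun y : V => Rᵀ *ᵥ y) := by
      have : ContDiff ℝ 1 (fun y : V => clm Rᵀ y) := (clm Rᵀ).contDiff
      simpa using this
    exact h2.comp_contDiffOn h1
  · exact h.contDiffOn_p.comp hmap.contDiffOn hmaps
  · intro t ht i x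
    simp only [Matrix.mulVec_add]
    rw [(h.periodic_u t ht).lat (hR.lat i)]
  · intro t ht i x
    simp only [Matrix.mulVec_add]
    rw [(h.periodic_p t ht).lat (hR.lat i)]
  · intro t ht x
    show (grad _ x).trace = 0
    rw [grad_push x (hu t ht _), Matrix.trace_mul_cycle, hR.1, Matrix.one_mul]
    exact h.div_free t ht _
  · intro t ht x i
    have huniq : UniqueDiffWithinAt ℝ (Ico 0 T) t := uniqueDiffOn_Ico 0 T t ht
    -- time derivative
    have hd : ∀ y, HasDerivWithinAt (fun s => u s y) (derivWithin (fun s => u s y) (Ico 0 T) t)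
        (Ico 0 T) t := by
      intro y
      have h1 : DifferentiableWithinAt ℝ (fun z : ℝ × V => u z.1 z.2) (Ico 0 T ×ˢ univ) (t, y) :=
        h.contDiffOn_u.differentiableOn one_ne_zero (t, y) ⟨ht, mem_univ _⟩
      have h2 : DifferentiableWithinAt ℝ (fun s : ℝ => ((s, y) : ℝ × V)) (Ico 0 T) t := by
        fun_prop
      have h3 : MapsTo (fun s : ℝ => ((s, y) : ℝ × V)) (Ico 0 T) (Ico 0 T ×ˢ univ) :=
        fun s hs => ⟨hs, mem_univ _⟩
      exact (DifferentiableWithinAt.comp (g := fun z : ℝ × V => u z.1 z.2) t h1 h2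
        h3).hasDerivWithinAt
    have hdi : ∀ y j, derivWithin (fun s => u s y j) (Ico 0 T) t
        = derivWithin (fun s => u s y) (Ico 0 T) t j := by
      intro y j
      exact (hasDerivWithinAt_pi.1 (hd y) j).derivWithin huniq
    have h1 : HasDerivWithinAt (fun s => Rᵀ *ᵥ u s (R *ᵥ x))
        (Rᵀ *ᵥ derivWithin (fun s => u s (R *ᵥ x)) (Ico 0 T) t) (Ico 0 T) t := by
      have h := (clm Rᵀ).hasFDerivAt.comp_hasDerivWithinAt t (hd (R *ᵥ x))
      rw [clm_apply] at h
      exact h.congr (fun s _ => (clm_apply _ _).symm) (clm_apply _ _).symm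
    have h2 : derivWithin (fun s => (Rᵀ *ᵥ u s (R *ᵥ x)) i) (Ico 0 T) t
        = (Rᵀ *ᵥ derivWithin (fun s => u s (R *ᵥ x)) (Ico 0 T) t) i :=
      (hasDerivWithinAt_pi.1 h1 i).derivWithin huniq
    have hmom : derivWithin (fun s => u s (R *ᵥ x)) (Ico 0 T) t
        + grad (u t) (R *ᵥ x) *ᵥ u t (R *ᵥ x)
        = fun j => -fderiv ℝ (p t) (R *ᵥ x) (Pi.single j 1) := by
      ext j
      have := h.momentum t ht (R *ᵥ x) j
      rw [sum_mul_clm, hdi, grad_eq_toMatrix] at this
      exact this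
    have h3 : ∀ (y : V), fderiv ℝ (fun x => Rᵀ *ᵥ u t (R *ᵥ x)) x y
        = Rᵀ *ᵥ (grad (u t) (R *ᵥ x) *ᵥ (R *ᵥ y)) := by
      intro y
      rw [(hasFDerivAt_push x (hu t ht _)).fderiv]
      simp only [ContinuousLinearMap.comp_apply, clm_apply, grad_eq_toMatrix]
    have h4 : fderiv ℝ (fun x => p t (R *ᵥ x)) x (Pi.single i 1)
        = fderiv ℝ (p t) (R *ᵥ x) (R *ᵥ Pi.single i 1) := by
      have e1 : HasFDerivAt (fun x : V => R *ᵥ x) (clm R) x := by
        have := (clm R).hasFDerivAt (x := x)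
        exact this.congr_of_eventuallyEq
          (Filter.Eventually.of_forall fun y => (clm_apply R y).symm)
      have e2 : HasFDerivAt (fun x => p t (R *ᵥ x)) (fderiv ℝ (p t) (R *ᵥ x) ∘L clm R) x :=
        (hp t ht (R *ᵥ x)).hasFDerivAt.comp x e1
      rw [e2.fderiv]
      simp
    rw [h2, sum_mul_clm, h3, h4]
    have h5 : Rᵀ *ᵥ (grad (u t) (R *ᵥ x) *ᵥ (R *ᵥ (Rᵀ *ᵥ u t (R *ᵥ x))))
        = Rᵀ *ᵥ (grad (u t) (R *ᵥ x) *ᵥ u t (R *ᵥ x)) := by
      rw [Matrix.mulVec_mulVec (u t (R *ᵥ x)) R Rᵀ, hR.1, Matrix.one_mulVec]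
    rw [h5, ← Pi.add_apply, ← Matrix.mulVec_add, hmom, ← sum_mul_clm']
    simp only [Matrix.mulVec, dotProduct, Matrix.transpose_apply, mul_neg,
      Finset.sum_neg_distrib]
    congr 1
    refine Finset.sum_congr rfl fun j _ => ?_
    congr 1
    simp [Pi.single_apply]

/-- Symmetries of the initial velocity persist. -/
theorem equivariant_of_zero {T : ℝ} {u : ℝ → V → V} {p : ℝ → V → ℝ}
    {R : Matrix (Fin 3) (Fin 3) ℝ} (hR : IsCubeSymmetry R)
    (h : IsClassicalSolution (Ico 0 T) u p) (h0 : Equivariant R (u 0)) :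
    ∀ t ∈ Ico 0 T, Equivariant R (u t) := by
  intro t ht x
  have hR2 : Rᵀ * R = 1 := mul_eq_one_comm.1 hR.1
  have h1 := unique (push_sol hR h) h (by
    ext1 x
    rw [h0 x, Matrix.mulVec_mulVec, hR2, Matrix.one_mulVec]) t ht
  have h2 : Rᵀ *ᵥ u t (R *ᵥ x) = u t x := congrFun h1 x
  rw [← h2, Matrix.mulVec_mulVec, hR.1, Matrix.one_mulVec]

/-- Only scalar matrices commute with all elements of `S`. -/
def Irred (S : Set (Matrix (Fin 3) (Fin 3) ℝ)) : Prop :=
  ∀ A : Matrix (Fin 3) (Fin 3) ℝ, (∀ R ∈ S, A * R = R * A) → ∃ c : ℝ, A = c • 1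

section flat

variable {S : Set (Matrix (Fin 3) (Fin 3) ℝ)} {v : V → V}

lemma zero_of_equivariant (hS : Irred S) (hS1 : ∀ R ∈ S, IsCubeSymmetry R)
    (hv : ∀ R ∈ S, Equivariant R v) : v 0 = 0 := by
  have hfix : ∀ R ∈ S, R *ᵥ v 0 = v 0 := by
    intro R hR
    have := hv R hR 0
    rw [Matrix.mulVec_zero] at this
    exact this.symm
  obtain ⟨c, hc⟩ := hS (Matrix.vecMulVec (v 0) (v 0)) (by
    intro R hR
    have hR2 : Rᵀ * R = 1 := mul_eq_one_comm.1 (hS1 R hR).1
    have e1 : R * Matrix.vecMulVec (v 0) (v 0) = Matrix.vecMulVec (v 0) (v 0) := by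
      rw [Matrix.mul_vecMulVec, hfix R hR]
    have e2 : (v 0) ᵥ* R = v 0 := by
      have : Rᵀ *ᵥ (R *ᵥ v 0) = v 0 := by
        rw [Matrix.mulVec_mulVec, hR2, Matrix.one_mulVec]
      rw [hfix R hR, Matrix.mulVec_transpose] at this
      exact this
    have e3 : Matrix.vecMulVec (v 0) (v 0) * R = Matrix.vecMulVec (v 0) (v 0) := by
      rw [Matrix.vecMulVec_mul, e2]
    rw [e1, e3])
  have h01 := congrFun (congrFun hc 0) 1
  have h12 := congrFun (congrFun hc 1) 2
  have h02 := congrFun (congrFun hc 0) 2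
  have h00 := congrFun (congrFun hc 0) 0
  have h11 := congrFun (congrFun hc 1) 1
  have h22 := congrFun (congrFun hc 2) 2
  simp [Matrix.vecMulVec_apply] at h01 h12 h02 h00 h11 h22
  have hc0 : c = 0 := by
    rcases h01 with h | h
    · rw [h] at h00; simpa using h00.symm
    · rw [h] at h11; simpa using h11.symm
  subst hc0
  ext i
  fin_cases i
  · simpa using h00
  · simpa using h11
  · simpa using h22

lemma fderiv_zero_of_equivariant (hS : Irred S)
    (hv : ∀ R ∈ S, Equivariant R v) (hd : DifferentiableAt ℝ v 0) (hdiv : divergence v 0 = 0) :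
    fderiv ℝ v 0 = 0 := by
  have hcomm : ∀ R ∈ S, grad v 0 * R = R * grad v 0 := by
    intro R hR
    have e1 : HasFDerivAt (fun x : V => R *ᵥ x) (clm R) 0 := by
      have := (clm R).hasFDerivAt (x := (0 : V))
      exact this.congr_of_eventuallyEq
        (Filter.Eventually.of_forall fun y => (clm_apply R y).symm)
    have hd' : HasFDerivAt v (fderiv ℝ v 0) (R *ᵥ (0 : V)) := by
      rw [Matrix.mulVec_zero]; exact hd.hasFDerivAt
    have e2 : HasFDerivAt (fun x => v (R *ᵥ x)) (fderiv ℝ v 0 ∘L clm R) 0 := hd'.comp 0 e1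
    have e3 : HasFDerivAt (fun x => R *ᵥ v x) (clm R ∘L fderiv ℝ v 0) 0 := by
      have := (clm R).hasFDerivAt.comp (0 : V) hd.hasFDerivAt
      refine this.congr_of_eventuallyEq (Filter.Eventually.of_forall fun y => ?_)
      simp
    have e4 : (fun x => v (R *ᵥ x)) = fun x => R *ᵥ v x := funext (hv R hR)
    rw [e4] at e2
    have e5 := e2.unique e3
    ext i j
    have e6 := congrFun (congrArg (fun L : V →L[ℝ] V => L (Pi.single j 1)) e5) i
    simp only [ContinuousLinearMap.comp_apply, clm_apply, grad_eq_toMatrix,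
      Matrix.mulVec_mulVec] at e6
    simpa [Matrix.mulVec_single] using e6
  obtain ⟨c, hc⟩ := hS _ hcomm
  have hc0 : c = 0 := by
    have : (grad v 0).trace = 0 := hdiv
    rw [hc] at this
    simpa [Matrix.trace_smul] using this
  ext y : 1
  rw [grad_eq_toMatrix, hc, hc0]
  simp

end flat

end Pool.Agent.L5helper80.EC
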