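import Pool.Agent.L5helper80.EC.Sym

/-!
# Bounds near a point where the first derivatives vanish
-/

open MeasureTheory Set
open scoped ENNReal NNReal Topology Pointwise Matrix

namespace Pool.Agent.L5helper80.EC

open Pool.Agent.H708R2.EulerSign Pool.Agent.H708R2.EulerTypeI

/-- If the derivatives of order less than `k` vanish at `0`, then `|f y| ≤ M |y|^k / k!`. -/
lemma taylor_bound {E : Type} [NormedAddCommGroup E] [NormedSpace ℝ E] (k : ℕ) :
    ∀ {F : Type} [NormedAddCommGroup F] [NormedSpace ℝ F] (f : E → F), ContDiff ℝ k f →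
    (∀ j < k, iteratedFDeriv ℝ j f 0 = 0) → ∀ {M r : ℝ},
    (∀ y, ‖y‖ ≤ r → ‖iteratedFDeriv ℝ k f y‖ ≤ M) → ∀ y, ‖y‖ ≤ r →
    ‖f y‖ ≤ M * ‖y‖ ^ k / k.factorial := by
  induction k with
  | zero =>
    intro F _ _ f hf h0 M r hM y hy
    have := hM y hy
    rw [norm_iteratedFDeriv_zero] at this
    simpa using this
  | succ k ih =>
    intro F _ _ f hf h0 M r hM y hy
    have hr : 0 ≤ r := (norm_nonneg y).trans hy
    have hM0 : 0 ≤ M := (norm_nonneg _).trans (hM 0 (by simpa using hr))
    have hf' : ContDiff ℝ k (fderiv ℝ f) := by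
      have h := hf
      push_cast at h
      exact (contDiff_succ_iff_fderiv.1 h).2.2
    have hdf : Differentiable ℝ f := hf.differentiable (by simp)
    have hg : ∀ z, ‖z‖ ≤ r → ‖fderiv ℝ f z‖ ≤ M * ‖z‖ ^ k / k.factorial := by
      refine ih (fderiv ℝ f) hf' (fun j hj => ?_) (fun z hz => ?_)
      · have h1 : ‖iteratedFDeriv ℝ j (fderiv ℝ f) 0‖ = ‖iteratedFDeriv ℝ (j + 1) f 0‖ :=
          norm_iteratedFDeriv_fderiv
        rw [h0 (j + 1) (by omega), norm_zero] at h1
        exact norm_eq_zero.1 h1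
      · rw [norm_iteratedFDeriv_fderiv]
        exact hM z hz
    have hf0 : f 0 = 0 := by
      have := h0 0 (by omega)
      have h1 : ‖iteratedFDeriv ℝ 0 f 0‖ = ‖f 0‖ := norm_iteratedFDeriv_zero
      rw [this, norm_zero] at h1
      exact norm_eq_zero.1 h1.symm
    have hφ : ∀ s : ℝ, HasDerivAt (fun s : ℝ => f (s • y)) (fderiv ℝ f (s • y) y) s := by
      intro s
      have h1 : HasDerivAt (fun s : ℝ => s • y) y s := by
        simpa using (hasDerivAt_id s).smul_const y
      exact (hdf (s • y)).hasFDerivAt.comp_hasDerivAt s h1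
    have hB : ∀ s : ℝ, HasDerivAt
        (fun s : ℝ => M * ‖y‖ ^ (k + 1) * s ^ (k + 1) / (k + 1).factorial)
        (M * ‖y‖ ^ (k + 1) * s ^ k / k.factorial) s := by
      intro s
      have h1 := ((hasDerivAt_pow (k + 1) s).const_mul (M * ‖y‖ ^ (k + 1))).div_const
        ((k + 1).factorial : ℝ)
      refine h1.congr_deriv ?_
      have hk : (k.factorial : ℝ) ≠ 0 := by positivity
      have hk1 : ((k : ℝ) + 1) ≠ 0 := by positivity
      rw [Nat.factorial_succ]
      push_cast
      field_simp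
    have hmain := image_norm_le_of_norm_deriv_right_le_deriv_boundary (a := 0) (b := 1)
      (f := fun s : ℝ => f (s • y)) (f' := fun s => fderiv ℝ f (s • y) y)
      (fun s _ => (hφ s).continuousAt.continuousWithinAt)
      (fun s _ => (hφ s).hasDerivWithinAt)
      (B := fun s : ℝ => M * ‖y‖ ^ (k + 1) * s ^ (k + 1) / (k + 1).factorial)
      (B' := fun s : ℝ => M * ‖y‖ ^ (k + 1) * s ^ k / k.factorial)
      (by simp [hf0]) hB (by
        intro s hs
        have hsy : ‖s • y‖ = s * ‖y‖ := by rw [norm_smul, Real.norm_eq_abs, abs_of_nonneg hs.1]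
        have h1 : ‖s • y‖ ≤ r := by
          rw [hsy]
          calc s * ‖y‖ ≤ 1 * ‖y‖ := by gcongr; exact hs.2.le
            _ ≤ r := by linarith
        calc ‖fderiv ℝ f (s • y) y‖ ≤ ‖fderiv ℝ f (s • y)‖ * ‖y‖ :=
              ContinuousLinearMap.le_opNorm _ _
          _ ≤ (M * ‖s • y‖ ^ k / k.factorial) * ‖y‖ := by
              gcongr
              exact hg _ h1
          _ = M * ‖y‖ ^ (k + 1) * s ^ k / k.factorial := by
              rw [hsy, mul_pow]; ring)
      (show (1 : ℝ) ∈ Icc (0 : ℝ) 1 from ⟨zero_le_one, le_rfl⟩)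
    simpa using hmain

/-- Odd fields have a vanishing second derivative at the centre. -/
lemma fderiv2_zero_of_odd {v : V → V} (hv : ContDiff ℝ 2 v) (hodd : ∀ x, v (-x) = -v x) :
    fderiv ℝ (fderiv ℝ v) 0 = 0 := by
  have hd : Differentiable ℝ v := hv.differentiable (by norm_num)
  have hd1 : Differentiable ℝ (fderiv ℝ v) := by
    have h2 : ContDiff ℝ 1 (fderiv ℝ v) := hv.fderiv_right (m := 1) (by norm_num)
    exact h2.differentiable one_ne_zero
  have hneg : ∀ {F : Type} [NormedAddCommGroup F] [NormedSpace ℝ F] (g : V → F) (x : V),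
      DifferentiableAt ℝ g (-x) →
      HasFDerivAt (fun y => g (-y)) (-fderiv ℝ g (-x)) x := by
    intro F _ _ g x hg
    have h1 : HasFDerivAt (fun y : V => -y) (-ContinuousLinearMap.id ℝ V) x :=
      (hasFDerivAt_id x).neg
    have h2 : HasFDerivAt (fun y => g (-y)) (fderiv ℝ g (-x) ∘L (-ContinuousLinearMap.id ℝ V)) x :=
      HasFDerivAt.comp (g := g) (f := fun y : V => -y) x hg.hasFDerivAt h1
    refine h2.congr_fderiv ?_
    ext1 y
    simp
  have heven : ∀ x, fderiv ℝ v (-x) = fderiv ℝ v x := by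
    intro x
    have h1 := hneg v x (hd _)
    have h2 : (fun y => v (-y)) = fun y => -v y := funext hodd
    rw [h2] at h1
    have h3 := h1.unique (hd x).hasFDerivAt.neg
    exact neg_injective h3
  have h1 := hneg (fderiv ℝ v) 0 (by simpa using hd1 0)
  have h2 : (fun y => fderiv ℝ v (-y)) = fderiv ℝ v := funext heven
  rw [h2, neg_zero] at h1
  have h3 := h1.unique (hd1 0).hasFDerivAt
  ext y z i
  have h4 := congrFun (congrArg (fun L : V →L[ℝ] V →L[ℝ] V => L y z) h3) i
  simp only [neg_apply, Pi.neg_apply] at h4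
  simp only [zero_apply, Pi.zero_apply]
  linarith

/-- The order of vanishing of the velocity at the centre. -/
def Order (S : Set (Matrix (Fin 3) (Fin 3) ℝ)) (k : ℕ) : Prop :=
  k = 2 ∨ k = 3 ∧ (-1 : Matrix (Fin 3) (Fin 3) ℝ) ∈ S

lemma iter_zero {S : Set (Matrix (Fin 3) (Fin 3) ℝ)} {v : V → V} {k : ℕ} (hS : Irred S)
    (hS1 : ∀ R ∈ S, IsCubeSymmetry R) (hk : Order S k) (hv : ∀ R ∈ S, Equivariant R v)
    (hd : ContDiff ℝ k v) (hdiv : divergence v 0 = 0) :
    ∀ j < k, iteratedFDeriv ℝ j v 0 = 0 := by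
  have hk2 : 2 ≤ k := by rcases hk with h | h <;> omega
  have hd2 : ContDiff ℝ 2 v := hd.of_le (by exact_mod_cast hk2)
  have h0 := zero_of_equivariant hS hS1 hv
  have h1 := fderiv_zero_of_equivariant hS hv (hd2.differentiable (by norm_num) 0) hdiv
  intro j hj
  rcases j with _ | _ | j
  · rw [← norm_eq_zero, norm_iteratedFDeriv_zero, h0, norm_zero]
  · rw [← norm_eq_zero, zero_add, ← norm_iteratedFDeriv_fderiv, norm_iteratedFDeriv_zero, h1,
      norm_zero]
  · have hj0 : j = 0 := by rcases hk with h | h <;> omega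
    subst hj0
    have hodd : ∀ x, v (-x) = -v x := by
      rcases hk with h | h
      · omega
      · intro x
        have := hv _ h.2 x
        simpa [Matrix.neg_mulVec] using this
    rw [← norm_eq_zero, zero_add, ← norm_iteratedFDeriv_fderiv, ← norm_iteratedFDeriv_fderiv,
      norm_iteratedFDeriv_zero, fderiv2_zero_of_odd hd2 hodd, norm_zero]

end Pool.Agent.L5helper80.EC
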